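import Pool.Agent.Strip051.LC.Final.All

/-! # Molnár's conjecture on packings of unit discs in a strip

For every width `w > 2 + 2 √3` the largest density of a packing of unit discs in the strip of
width `w` is Molnár's `M(w)`. -/

namespace Pool.Agent.Results.MP_051ec8_co.ExactValue

open Pool.Agent.StripNear Pool.Agent.StripTwo

theorem result (w : ℝ) (hw : 2 + 2 * Real.sqrt 3 < w) (O : E2) :
    IsGreatest {d : ℝ | ∃ C : Set E2, IsStripPacking w C ∧ HasDensity w C O d} (molnar w) :=
  Pool.Agent.Strip051.LC.Final.molnar_exact hw.le O

end Pool.Agent.Results.MP_051ec8_co.ExactValue
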